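import Pool.Agent.TH144.MB.Diag

/-!
# Fujita's freeness conjecture for étale quotients by finite diagonal groups

`Y ⊂ P^N` is given by a homogeneous ideal `I`, and a finite group `G` acts by diagonal matrices on
`P^N`, preserving `Y`, freely on `Y`. Let `ω_Y = O(κ)` and `n = dim Y`, and let `Y` be a complete
intersection, or arithmetically Cohen-Macaulay. For `X = Y/G` and a line bundle `A` on `X` whose
pullback to `Y` is `O(k)`, `k ≥ 1`, the sections of `K_X + mA` are the forms of degree `κ + mk` on the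
cone over `Y` on which `G` acts by a given character `χ`. For `m ≥ n + 1` they have no common zero.
-/

set_option autoImplicit false

namespace Pool.Agent.Results.MP_9ff3e7_ag.FreeDiagonalQuotients

open MvPolynomial

/-- A homogeneous ideal `I` in `ℂ[x_0, …, x_N]` and an action of `G` on `ℂ^(N+1)` by diagonal
matrices, the `i`-th coordinate being multiplied by the character `α i`. The zero set of `I` is
stable under `G`, and no element `g ≠ 1` fixes a line in it. -/
structure DiagonalCover (G : Type) [Group G] (N : ℕ) where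
  I : Ideal (MvPolynomial (Fin (N + 1)) ℂ)
  homogeneous : ∀ p ∈ I, ∀ n, homogeneousComponent n p ∈ I
  α : Fin (N + 1) → G →* ℂˣ
  stable : ∀ v : Fin (N + 1) → ℂ, (∀ p ∈ I, eval v p = 0) →
    ∀ (g : G), ∀ p ∈ I, eval (fun i => (α i g : ℂ) * v i) p = 0
  free : ∀ v : Fin (N + 1) → ℂ, v ≠ 0 → (∀ p ∈ I, eval v p = 0) → ∀ (g : G) (μ : ℂ),
    (∀ i, (α i g : ℂ) * v i = μ * v i) → g = 1

/-- the linear form with coefficients `a` -/
noncomputable def linForm {N : ℕ} (a : Fin (N + 1) → ℂ) : MvPolynomial (Fin (N + 1)) ℂ :=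
  ∑ i, C (a i) * X i

/-- `I` is generated by `c = N - n` forms of degrees `d j ≥ 1`, and `κ = ∑ d j - (N + 1)`. -/
def CompleteIntersection {N : ℕ} (I : Ideal (MvPolynomial (Fin (N + 1)) ℂ)) (n : ℕ) (κ : ℤ) :
    Prop :=
  ∃ (c : ℕ) (f : Fin c → MvPolynomial (Fin (N + 1)) ℂ) (d : Fin c → ℕ),
    (∀ j, (f j).IsHomogeneous (d j) ∧ 0 < d j) ∧ I = Ideal.span (Set.range f) ∧
    N = n + c ∧ κ = ∑ j, (d j : ℤ) - (N + 1)

/-- There are `n + 1` linear forms which are a regular sequence modulo `I`, and modulo `I` and these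
linear forms there are no nonzero forms of degree `> κ + n + 1`. For the ideal of an arithmetically
Cohen-Macaulay variety of dimension `n` this says that the `a`-invariant is at most `κ`. -/
def CohenMacaulay {N : ℕ} (I : Ideal (MvPolynomial (Fin (N + 1)) ℂ)) (n : ℕ) (κ : ℤ) : Prop :=
  ∃ a : Fin (n + 1) → Fin (N + 1) → ℂ,
    (∀ i p, linForm (a i) * p ∈ I ⊔ Ideal.span ((fun j => linForm (a j)) '' {j | j < i}) →
      p ∈ I ⊔ Ideal.span ((fun j => linForm (a j)) '' {j | j < i})) ∧
    ∀ t : ℕ, κ + n + 1 < t → ∀ p : MvPolynomial (Fin (N + 1)) ℂ, p.IsHomogeneous t →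
      p ∈ I ⊔ Ideal.span (Set.range fun j => linForm (a j))

open Pool.Agent.TH144.MB in
theorem reg_ofFn {N : ℕ} (s : ℕ) : ∀ (a : Fin s → Fin (N + 1) → ℂ)
    (I : Ideal (MvPolynomial (Fin (N + 1)) ℂ)),
    (∀ i p, linForm (a i) * p ∈ I ⊔ Ideal.span ((fun j => linForm (a j)) '' {j | j < i}) →
      p ∈ I ⊔ Ideal.span ((fun j => linForm (a j)) '' {j | j < i})) →
    Reg I ((List.ofFn a).map lin) := by
  induction s with
  | zero => intro a I _; simp [Reg]
  | succ s ih =>
    intro a I h
    rw [List.ofFn_succ, List.map_cons]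
    refine ⟨?_, ih _ _ ?_⟩
    · have h0 := h 0
      have h1 : {j : Fin (s + 1) | j < 0} = ∅ := by
        ext j
        simp
      rw [h1, Set.image_empty, Ideal.span_empty, sup_bot_eq] at h0
      exact h0
    · intro i p
      have h0 := h i.succ p
      have h1 : {j : Fin (s + 1) | j < i.succ} = {0} ∪ Fin.succ '' {j | j < i} := by
        ext j
        refine Fin.cases ?_ (fun j => ?_) j
        · simp
        · simp [Fin.succ_ne_zero]
      have h2 : I ⊔ Ideal.span ((fun j => linForm (a j)) '' {j | j < i.succ})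
          = I ⊔ Ideal.span {lin (a 0)}
            ⊔ Ideal.span ((fun j => linForm (a (Fin.succ j))) '' {j | j < i}) := by
        rw [h1, Set.image_union, Set.image_singleton, Ideal.span_union, ← sup_assoc,
          Set.image_image]
        rfl
      rw [h2] at h0
      exact h0

open Pool.Agent.TH144.MB in
theorem le_ext_ofFn {N : ℕ} (s : ℕ) (a : Fin s → Fin (N + 1) → ℂ)
    (I : Ideal (MvPolynomial (Fin (N + 1)) ℂ)) :
    I ⊔ Ideal.span (Set.range fun j => linForm (a j)) ≤ ext I ((List.ofFn a).map lin) := by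
  have h4 : ∀ (L : List (MvPolynomial (Fin (N + 1)) ℂ))
      (I : Ideal (MvPolynomial (Fin (N + 1)) ℂ)), ∀ f ∈ L, f ∈ ext I L := by
    intro L
    induction L with
    | nil => intro I f hf; simp at hf
    | cons g L ih =>
      intro I f hf
      rw [ext_cons]
      rcases List.mem_cons.1 hf with rfl | hf
      · exact Ideal.mem_sup_right (Ideal.mem_span_singleton_self f)
      · exact Ideal.mem_sup_left (ih I f hf)
  refine sup_le (le_ext _ _) ?_
  rw [Ideal.span_le]
  rintro _ ⟨j, rfl⟩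
  refine h4 _ _ _ (List.mem_map.2 ⟨a j, ?_, rfl⟩)
  rw [List.mem_ofFn]
  exact ⟨j, rfl⟩

theorem result {G : Type} [Group G] [Finite G] {N : ℕ} (D : DiagonalCover G N) (n : ℕ) (κ : ℤ)
    (hY : CompleteIntersection D.I n κ ∨ CohenMacaulay D.I n κ)
    (k m e : ℕ) (hk : 1 ≤ k) (hm : n + 1 ≤ m) (he : (e : ℤ) = κ + m * k)
    (χ : G →* ℂˣ) (y : Fin (N + 1) → ℂ) (hy0 : y ≠ 0) (hy : ∀ p ∈ D.I, eval y p = 0) :
    ∃ F : MvPolynomial (Fin (N + 1)) ℂ, F.IsHomogeneous e ∧
      (∀ (g : G) (x : Fin (N + 1) → ℂ), eval (fun i => (D.α i g : ℂ) * x i) F = χ g * eval x F) ∧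
      eval y F ≠ 0 := by
  classical
  have _ := Fintype.ofFinite G
  have hmk : (n : ℤ) + 1 ≤ m * k := by
    have h1 : n + 1 ≤ m * k := hm.trans (Nat.le_mul_of_pos_right m hk)
    exact_mod_cast h1
  let S : Pool.Agent.TH144.MB.Sit ℂ G (N + 1) :=
    { I := D.I, hom := D.homogeneous, α := D.α, stable := D.stable, free := D.free }
  obtain ⟨ρ, hρ, hρe⟩ : ∃ ρ, Pool.Agent.TH144.MB.TopBound D.I ρ ∧ ρ ≤ e := by
    rcases hY with ⟨c, f, d, hfd, hI, hN, hκ⟩ | ⟨a, ha, hb⟩
    · refine ⟨∑ j, (d j - 1), ?_, ?_⟩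
      · rw [hI]
        exact Pool.Agent.TH144.MB.topBound_forms f d (fun j => (hfd j).1) fun j => (hfd j).2
      · have h1 : ((∑ j, (d j - 1) : ℕ) : ℤ) = ∑ j, (d j : ℤ) - c := by
          rw [Nat.cast_sum]
          have h2 : ∀ j, ((d j - 1 : ℕ) : ℤ) = (d j : ℤ) - 1 := fun j => by
            have := (hfd j).2
            omega
          simp only [h2]
          rw [Finset.sum_sub_distrib]
          simp
        have h3 : (N : ℤ) = n + c := by exact_mod_cast hN
        have h4 : ((∑ j, (d j - 1) : ℕ) : ℤ) ≤ e := by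
          rw [h1, he, hκ, h3]
          linarith
        exact_mod_cast h4
    · -- the degree bound
      have h0 : (κ + n + 1).toNat ≤ e := by
        rw [Int.toNat_le]
        rw [he]
        linarith
      refine ⟨(κ + n + 1).toNat, ?_, h0⟩
      refine Pool.Agent.TH144.MB.topBound_cm D.homogeneous (List.ofFn a)
        (reg_ofFn (n + 1) a D.I ha) ?_
      intro t ht p hp
      refine le_ext_ofFn (n + 1) a D.I (hb t ?_ p hp)
      omega
  obtain ⟨μ, h1, h2, h3⟩ := S.exists_monomial hρ hy0 hy χ hρe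
  refine ⟨monomial μ 1, isHomogeneous_monomial _ h1, ?_, ?_⟩
  · intro g x
    rw [eval_monomial, eval_monomial, Finsupp.prod_fintype _ _ (fun i => pow_zero _),
      Finsupp.prod_fintype _ _ (fun i => pow_zero _), one_mul, one_mul]
    simp only [mul_pow, Finset.prod_mul_distrib]
    rw [← h2 g]
    simp only [Units.coe_prod, Units.val_pow_eq_pow_val]
    rfl
  · rw [eval_monomial, Finsupp.prod_fintype _ _ (fun i => pow_zero _), one_mul]
    exact h3

end Pool.Agent.Results.MP_9ff3e7_ag.FreeDiagonalQuotients
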